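import Mathlib
import Pool.Agent.H95.SP.Case

/-!
# The dichotomy for `m + 1`, `m` a sum of unit germs
-/

set_option autoImplicit false

namespace Pool.Agent.H95.BO

open Filter Topology Pool.Agent.TH932.Germs Pool.Agent.TH551.SU Pool.Agent.TH551.SU.WT
open Pool.Agent.Y724.Vj MvPolynomial Pool.Agent.H95.EB Pool.Agent.H95.SP

variable {L : ℕ → ℝ} {s : ℕ} {b : Fin s → ℕ}

/-- the polynomial of `m + 1` -/
noncomputable def fln (hL : Tendsto L atTop atTop) {r m : ℕ} (κ : Fin r → KK L hL)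
    (ι : Fin r → Fin m) (N : ℕ) : MvPolynomial (Fin m) (KK L hL) :=
  (∑ i, C (κ i) * X (ι i) ^ N) + 1

theorem germ_ln (hb : ∀ v, (b v).Prime) (hbi : Function.Injective b)
    (hL : Tendsto L atTop atTop) {r k : ℕ} (mm : ℕ → ℕ) (hLm : ∀ n, L n = Real.log (mm n))
    (hm2 : ∀ n, 2 ≤ mm n) (c : Fin r → ℕ → ℤ) (hc : ∀ i, Negl L (c i)) (u : Fin r → ℕ → ℚ)
    (hu : ∀ i n, IsSU b (u i n)) (huB : ∀ i, Bd L (gm (u i)))
    (hmu : ∀ n, (mm n : ℚ) = ∑ i, c i n * u i n)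
    (hui : ∀ z : Fin r → ℤ, mon (fun i => gm (u i)) z ∈ KK L hL → z = 0)
    (hprime : ∀ (m : ℕ) (κ : Fin r → KK L hL) (ι : Fin r → Fin m) (N : ℕ) (T : Fin m → ℕ → ℚ),
      0 < N → Function.Injective ι → (∀ j n, IsSU b (T j n)) →
      (∀ i, (κ i : GG) * gm (T (ι i)) ^ N = gm (fun n => c i n * u i n)) → Prime (fln hL κ ι N))
    (d : Fin k → ℕ → ℤ) (hd : ∀ i, Negl L (d i)) (v : Fin k → ℕ → ℚ) (hv : ∀ i n, IsSU b (v i n))
    (hvB : ∀ i, Bd L (gm (v i))) (z : ℕ → ℤ) (hz : ∀ n, (z n : ℚ) = ∑ i, d i n * v i n) :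
    (∀ᶠ n in (UU : Filter ℕ), ∃ N : ℕ, ((mm n + 1 : ℕ) : ℤ) ∣ z n * ((∏ v, b v : ℕ) : ℤ) ^ N) ∨
      Negl L (fun n => (Int.gcd (z n) ((mm n + 1 : ℕ) : ℤ) : ℤ)) := by
  classical
  obtain ⟨m, T, ι, N, hN, hι, hT, hTB, hTu, hTv, hTi⟩ := exists_param2 hb hL u hu huB hui v hv hvB
  have hT0 : ∀ j, gm (T j) ≠ 0 := fun j => gsu_ne_zero hb ⟨T j, rfl, hT j⟩
  have hcK : ∀ i, ∃ e : KK L hL, (e : GG) = gm (fun n => (c i n : ℚ)) := fun i =>
    ⟨⟨_, gm_mem_KK' hL (hc i)⟩, rfl⟩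
  choose e he using hcK
  have hκ0 : ∀ i, ∃ κ : KK L hL, (κ : GG) = gm (u i) / gm (T (ι i)) ^ N := fun i =>
    ⟨⟨_, hTu i⟩, rfl⟩
  choose κ0 hκ0 using hκ0
  obtain ⟨κ, hκ⟩ : ∃ κ : Fin r → KK L hL, κ = fun i => e i * κ0 i := ⟨_, rfl⟩
  have hκT : ∀ i, (κ i : GG) * gm (T (ι i)) ^ N = gm (fun n => c i n * u i n) := by
    intro i
    have h1 : (κ i : GG) = (e i : GG) * (κ0 i : GG) := by rw [hκ]; rfl
    rw [h1, he, hκ0, mul_assoc, div_mul_cancel₀ _ (pow_ne_zero _ (hT0 _)), gm_mul]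
  have hfp := hprime m κ ι N T hN hι hT hκT
  obtain ⟨f, hf⟩ : ∃ f : MvPolynomial (Fin m) (KK L hL), f = fln hL κ ι N := ⟨_, rfl⟩
  rw [← hf] at hfp
  have hf0 : coeff 0 f = 1 := by
    rw [hf, fln, ← constantCoeff_eq]
    simp [hN.ne']
  obtain ⟨R, hR⟩ : ∃ R : Subring (KK L hL), R = (RS b).comap (algebraMap (KK L hL) GG) := ⟨_, rfl⟩
  have hmR : ∀ x : KK L hL, x ∈ R ↔ (x : GG) ∈ RS b := fun x => by rw [hR]; rfl
  have hκR : ∀ i, κ i ∈ R := by
    intro i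
    have h1 : (κ i : GG) = gm (fun n => (c i n : ℚ)) * (gm (u i) / gm (T (ι i)) ^ N) := by
      rw [hκ, ← he, ← hκ0]; rfl
    rw [hmR, h1]
    refine (RS b).mul_mem (RS_int _) ?_
    rw [gm_pow, gm_div]
    refine RS_su hb fun n => ?_
    rw [div_eq_mul_inv, ← zpow_natCast, ← zpow_neg]
    exact su_mul hb (hu i n) (su_zpow hb (hT _ n) _)
  have hfR : ∀ d, ((coeff d f : KK L hL) : GG) ∈ RS b := by
    intro d
    rw [← hmR]
    have h1 : f = MvPolynomial.map R.subtype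
        ((∑ i, C (⟨κ i, hκR i⟩ : R) * X (ι i) ^ N) + 1 : MvPolynomial (Fin m) R) := by
      rw [hf, fln, map_add, map_one, map_sum]
      simp only [map_mul, map_C, map_pow, map_X]
      rfl
    rw [h1, coeff_map]
    exact (coeff d _ : R).2
  have hF : gm (fun n => ((mm n + 1 : ℕ) : ℚ)) = aeval (fun k => gm (T k)) f := by
    rw [hf, fln, map_add, map_one, map_sum]
    have h1 : ∑ i, aeval (fun k => gm (T k)) (C (κ i) * X (ι i) ^ N : MvPolynomial (Fin m) (KK L hL)) =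
        gm (fun n => (mm n : ℚ)) := by
      have h2 : gm (fun n => (mm n : ℚ)) = ∑ i, gm (fun n => c i n * u i n) := by
        rw [← gm_sum]
        congr 1
        funext n
        exact hmu n
      rw [h2]
      refine Finset.sum_congr rfl fun i _ => ?_
      rw [map_mul, map_pow, aeval_X, aeval_C, ← hκT i]
      rfl
    rw [h1]
    have h2 : gm (fun n => ((mm n + 1 : ℕ) : ℚ)) = gm (fun n => (mm n : ℚ) + 1) := by
      congr 1
      funext n
      push_cast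
      rfl
    rw [h2]
    rfl
  choose A hA using hTv
  obtain ⟨G, w, hGR, hG⟩ := exG hb hL T hT d hd v hv A hA z hz
  refine germ_gen hb hbi hL T hT hTB hTi f hfp hf0 hfR (fun n => mm n + 1)
    (fun n => Nat.succ_ne_zero _) hF 4 ?_ G hGR w z hG
  refine Eventually.of_forall fun n => ?_
  have h1 : (2 : ℝ) ≤ mm n := by exact_mod_cast hm2 n
  have h2 : Real.exp (4 * L n) = (mm n : ℝ) ^ 4 := by
    rw [hLm, mul_comm, Real.exp_mul, Real.exp_log (by linarith)]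
    norm_cast
  show ((mm n + 1 : ℕ) : ℝ) ≤ Real.exp (4 * L n)
  rw [h2]
  push_cast
  nlinarith [sq_nonneg ((mm n : ℝ) ^ 2 - 1), pow_pos (by linarith : (0 : ℝ) < mm n) 2]

/-- **Irreducibility of `∑ κ i X i ^ N + 1`.** -/
theorem irrLn {K : Type} [Field K] [CharZero K] {τ : Type} [Fintype τ] [DecidableEq τ] (κ : τ → K)
    (i0 i1 : τ) (hi : i0 ≠ i1) (h0 : κ i0 ≠ 0) (h1 : κ i1 ≠ 0) {N : ℕ} (hN : 0 < N) :
    Irreducible ((∑ i, C (κ i) * X i ^ N) + 1 : MvPolynomial τ K) := by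
  have hch : CharZero (AlgebraicClosure K) :=
    charZero_of_injective_algebraMap (algebraMap K (AlgebraicClosure K)).injective
  obtain ⟨φ, hφ⟩ : ∃ φ : K →+* AlgebraicClosure K, φ = algebraMap K (AlgebraicClosure K) := ⟨_, rfl⟩
  have hφi : Function.Injective φ := φ.injective
  have h1' : φ (κ i1) ≠ 0 := (map_ne_zero φ).2 h1
  obtain ⟨ρ, hρ⟩ := IsAlgClosed.exists_pow_nat_eq (-1 / φ (κ i1)) hN
  have hirr := irrDiag (fun i => φ (κ i)) i0 i1 hi ((map_ne_zero φ).2 h0) h1' 1 one_ne_zero hN ρ (by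
    rw [hρ, mul_div_cancel₀ _ h1']
    ring)
  have hmap : MvPolynomial.map φ ((∑ i, C (κ i) * X i ^ N) + 1 : MvPolynomial τ K) =
      ∑ i, C (φ (κ i)) * X i ^ N + C 1 := by
    rw [map_add, map_one, map_sum, C_1]
    congr 1
    refine Finset.sum_congr rfl fun i _ => ?_
    rw [map_mul, map_pow, map_C, map_X]
  rw [← hmap] at hirr
  have hconst : ∀ V : MvPolynomial τ K, IsUnit (map φ V) → IsUnit V := by
    intro V hV
    obtain ⟨r, hr, h⟩ := isUnit_mv hV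
    have h2 : V = C (coeff 0 V) := by
      ext d
      rw [coeff_C]
      split_ifs with h3
      · rw [← h3]
      · apply hφi
        rw [← coeff_map, h, coeff_C, if_neg h3, map_zero]
    rw [h2]
    apply IsUnit.map C
    rw [isUnit_iff_ne_zero]
    intro h3
    apply hr
    have h4 : coeff 0 (map φ V) = r := by rw [h, coeff_C, if_pos rfl]
    rw [← h4, coeff_map, h3, map_zero]
  constructor
  · intro hu
    exact hirr.not_isUnit (hu.map (MvPolynomial.map φ))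
  · intro U V hUV
    have h2 : map φ ((∑ i, C (κ i) * X i ^ N) + 1 : MvPolynomial τ K) = map φ U * map φ V := by
      rw [hUV, map_mul]
    rcases hirr.isUnit_or_isUnit h2 with h | h
    · exact Or.inl (hconst U h)
    · exact Or.inr (hconst V h)

/-- **At least two terms.** -/
theorem germ_two (hb : ∀ v, (b v).Prime) (hbi : Function.Injective b)
    (hL : Tendsto L atTop atTop) {r k : ℕ} (hr : 2 ≤ r) (mm : ℕ → ℕ)
    (hLm : ∀ n, L n = Real.log (mm n))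
    (hm2 : ∀ n, 2 ≤ mm n) (c : Fin r → ℕ → ℤ) (hc : ∀ i, Negl L (c i)) (hc0 : ∀ i n, c i n ≠ 0)
    (u : Fin r → ℕ → ℚ)
    (hu : ∀ i n, IsSU b (u i n)) (huB : ∀ i, Bd L (gm (u i)))
    (hmu : ∀ n, (mm n : ℚ) = ∑ i, c i n * u i n)
    (hui : ∀ z : Fin r → ℤ, mon (fun i => gm (u i)) z ∈ KK L hL → z = 0)
    (d : Fin k → ℕ → ℤ) (hd : ∀ i, Negl L (d i)) (v : Fin k → ℕ → ℚ) (hv : ∀ i n, IsSU b (v i n))
    (hvB : ∀ i, Bd L (gm (v i))) (z : ℕ → ℤ) (hz : ∀ n, (z n : ℚ) = ∑ i, d i n * v i n) :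
    (∀ᶠ n in (UU : Filter ℕ), ∃ N : ℕ, ((mm n + 1 : ℕ) : ℤ) ∣ z n * ((∏ v, b v : ℕ) : ℤ) ^ N) ∨
      Negl L (fun n => (Int.gcd (z n) ((mm n + 1 : ℕ) : ℤ) : ℤ)) := by
  classical
  refine germ_ln hb hbi hL mm hLm hm2 c hc u hu huB hmu hui ?_ d hd v hv hvB z hz
  intro m κ ι N T hN hι hT hκT
  have hT0 : ∀ j, gm (T j) ≠ 0 := fun j => gsu_ne_zero hb ⟨T j, rfl, hT j⟩
  have hu0 : ∀ i, gm (u i) ≠ 0 := fun i => gsu_ne_zero hb ⟨u i, rfl, hu i⟩
  have hκ0 : ∀ i, κ i ≠ 0 := by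
    intro i h0
    have h1 := hκT i
    rw [h0] at h1
    have h2 : gm (fun n => (c i n : ℚ) * u i n) ≠ 0 := by
      rw [← gm_mul]
      refine mul_ne_zero ?_ (hu0 i)
      rw [gm_ne_zero]
      exact Eventually.of_forall fun n => by exact_mod_cast hc0 i n
    apply h2
    rw [← h1]
    simp
  obtain ⟨κ', hκ'⟩ : ∃ κ' : Fin m → KK L hL, κ' = fun j => ∑ i, if ι i = j then κ i else 0 :=
    ⟨_, rfl⟩
  have h1 : fln hL κ ι N = (∑ j, C (κ' j) * X j ^ N) + 1 := by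
    rw [fln]
    congr 1
    rw [hκ']
    simp only [map_sum, Finset.sum_mul]
    rw [Finset.sum_comm]
    refine Finset.sum_congr rfl fun i _ => ?_
    rw [Finset.sum_eq_single (ι i)]
    · rw [if_pos rfl]
    · intro j _ hj
      rw [if_neg hj.symm, map_zero, zero_mul]
    · intro h
      exact absurd (Finset.mem_univ _) h
  have h2 : ∀ i, κ' (ι i) = κ i := by
    intro i
    rw [hκ']
    simp only
    rw [Finset.sum_eq_single i]
    · rw [if_pos rfl]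
    · intro j _ hj
      rw [if_neg]
      exact fun h => hj (hι h)
    · intro h
      exact absurd (Finset.mem_univ _) h
  rw [h1]
  apply Irreducible.prime
  refine irrLn κ' (ι ⟨0, by omega⟩) (ι ⟨1, by omega⟩) ?_ ?_ ?_ hN
  · intro h
    have := hι h
    simp at this
  · rw [h2]; exact hκ0 _
  · rw [h2]; exact hκ0 _

end Pool.Agent.H95.BO
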