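import Mathlib
import Pool.Agent.H95.BO.Case
import Pool.Agent.H95.SP.Cnt

/-!
# `m + 1` behaves like a prime for short sums of `S`-units
-/

set_option autoImplicit false

namespace Pool.Agent.H95.BO

open Filter Topology Pool.Agent.TH932.Germs Pool.Agent.TH551.SU Pool.Agent.TH551.SU.WT
open Pool.Agent.Y724.Vj Pool.Agent.H95.EB Pool.Agent.H95.SP

section seq
variable {mm : ℕ → ℕ} (hm : ∀ n, n + 2 ≤ mm n)
include hm

lemma F_le (n : ℕ) {x : ℝ} (hx : 0 ≤ x) : ((mm n + 1 : ℕ) : ℝ) ^ x ≤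
    Real.exp (4 * x * Real.log (mm n)) := by
  have h1 : (2 : ℝ) ≤ mm n := by exact_mod_cast (by have := hm n; omega : 2 ≤ mm n)
  have h2 : ((mm n + 1 : ℕ) : ℝ) ≤ Real.exp (4 * Real.log (mm n)) := by
    have h3 : Real.exp (4 * Real.log (mm n)) = (mm n : ℝ) ^ 4 := by
      rw [mul_comm, Real.exp_mul, Real.exp_log (by linarith)]
      norm_cast
    rw [h3]
    push_cast
    nlinarith [sq_nonneg ((mm n : ℝ) ^ 2 - 1), pow_pos (by linarith : (0 : ℝ) < mm n) 2]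
  refine (Real.rpow_le_rpow (by positivity) h2 hx).trans ?_
  rw [← Real.exp_mul]
  apply Real.exp_le_exp.2
  linarith

lemma F_ge (n : ℕ) {x : ℝ} (hx : 0 ≤ x) :
    Real.exp (x * Real.log (mm n)) ≤ ((mm n + 1 : ℕ) : ℝ) ^ x := by
  rw [← rpow_eq hm]
  refine Real.rpow_le_rpow (by positivity) ?_ hx
  push_cast
  linarith

/-- the data of a sequence of short sums -/
lemma short_seq (S : Finset ℕ) (hS : ∀ p ∈ S, p.Prime) {k : ℕ} {C : ℝ} (z : ℕ → ℤ)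
    (h : ∀ n, Short S k (((mm n + 1 : ℕ) : ℝ) ^ (1 / ((n : ℝ) + 1)))
      (((mm n + 1 : ℕ) : ℝ) ^ C) (z n)) :
    ∃ (d : Fin k → ℕ → ℤ) (v : Fin k → ℕ → ℚ), (∀ i, Negl (fun n => Real.log (mm n)) (d i)) ∧
      (∀ i n, IsSU (bs S) (v i n)) ∧ (∀ i, Bd (fun n => Real.log (mm n)) (gm (v i))) ∧
      ∀ n, (z n : ℚ) = ∑ i, d i n * v i n := by
  choose d v hd hv hz using h
  have hF1 : ∀ n, (1 : ℝ) ≤ ((mm n + 1 : ℕ) : ℝ) := fun n => by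
    push_cast
    have : (0 : ℝ) ≤ mm n := Nat.cast_nonneg _
    linarith
  refine ⟨fun i n => d n i, fun i n => v n i, fun i => ?_, fun i n => isSU_of S hS (hv n i).1,
    fun i => ?_, fun n => hz n⟩
  · refine negl_rpow hm (A := 4) (by norm_num) fun n => ?_
    refine (hd n i).trans ?_
    exact F_le hm n (by positivity)
  · have hFC : ∀ n, ((mm n + 1 : ℕ) : ℝ) ^ C ≤ Real.exp (4 * |C| * Real.log (mm n)) := fun n =>
      (Real.rpow_le_rpow_of_exponent_le (hF1 n) (le_abs_self C)).trans (F_le hm n (abs_nonneg C))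
    exact bd_of hm (fun n => ((hv n i).2.1).trans (hFC n)) (fun n => ((hv n i).2.2).trans (hFC n))

lemma no_dich (S : Finset ℕ) {ε : ℝ} (hε : 0 < ε) (z : ℕ → ℤ)
    (h1 : ∀ n, ¬ ∃ N : ℕ, ((mm n + 1 : ℕ) : ℤ) ∣ z n * ((∏ p ∈ S, p : ℕ) : ℤ) ^ N)
    (h2 : ∀ n, ((mm n + 1 : ℕ) : ℝ) ^ ε < (Int.gcd (z n) ((mm n + 1 : ℕ) : ℤ) : ℝ))
    (h : (∀ᶠ n in (UU : Filter ℕ), ∃ N : ℕ,
      ((mm n + 1 : ℕ) : ℤ) ∣ z n * ((∏ v, bs S v : ℕ) : ℤ) ^ N) ∨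
      Negl (fun n => Real.log (mm n))
        (fun n => (Int.gcd (z n) ((mm n + 1 : ℕ) : ℤ) : ℤ))) : False := by
  rw [prod_bs] at h
  rcases h with h | h
  · obtain ⟨n, hn⟩ := h.exists
    exact h1 n hn
  · obtain ⟨n, hn⟩ := (h ε hε).exists
    rw [Int.cast_natCast, abs_of_nonneg (Nat.cast_nonneg _)] at hn
    have h3 := h2 n
    have h4 := F_ge hm n hε.le
    linarith

end seq

/-- **Several terms.** -/
theorem more_terms (S : Finset ℕ) (hS : ∀ p ∈ S, p.Prime) (r : ℕ) (hr : 2 ≤ r) (k : ℕ) (C ε : ℝ)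
    (hε : 0 < ε) (τ : (Fin r → ℤ) → ℝ) (hτ : ∀ n, 0 < τ n) :
    ∃ δ : ℝ, 0 < δ ∧ ∃ B m₀ : ℕ, ∀ m : ℕ, m₀ ≤ m → ∀ (c : Fin r → ℤ) (u : Fin r → ℚ),
      (∀ i, c i ≠ 0 ∧ |(c i : ℝ)| ≤ (m : ℝ) ^ δ) →
      (∀ i, IsSUnit S (u i) ∧ |((u i).num : ℝ)| ≤ (m : ℝ) ^ C ∧ ((u i).den : ℝ) ≤ (m : ℝ) ^ C) →
      (m : ℚ) = ∑ i, c i * u i →
      (∃ y : Fin r → ℤ, y ≠ 0 ∧ (∀ i, |y i| ≤ B) ∧
        |((∏ i, u i ^ y i).num : ℝ)| ≤ (m : ℝ) ^ τ y ∧ ((∏ i, u i ^ y i).den : ℝ) ≤ (m : ℝ) ^ τ y) ∨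
      PrimeLike S k δ C ε (m + 1) := by
  by_contra hcon
  push Not at hcon
  have hch : ∀ n : ℕ, ∃ m : ℕ, n + 2 ≤ m ∧ ∃ (c : Fin r → ℤ) (u : Fin r → ℚ),
      (∀ i, c i ≠ 0 ∧ |(c i : ℝ)| ≤ (m : ℝ) ^ (1 / ((n : ℝ) + 1))) ∧
      (∀ i, IsSUnit S (u i) ∧ |((u i).num : ℝ)| ≤ (m : ℝ) ^ C ∧ ((u i).den : ℝ) ≤ (m : ℝ) ^ C) ∧
      (m : ℚ) = ∑ i, c i * u i ∧
      (∀ y : Fin r → ℤ, y ≠ 0 → (∀ i, |y i| ≤ n) →
        |((∏ i, u i ^ y i).num : ℝ)| ≤ (m : ℝ) ^ τ y →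
          (m : ℝ) ^ τ y < ((∏ i, u i ^ y i).den : ℝ)) ∧
      ¬ PrimeLike S k (1 / ((n : ℝ) + 1)) C ε (m + 1) := by
    intro n
    obtain ⟨m, hm, c, u, h1, h2, h3, h4, h5⟩ := hcon (1 / ((n : ℝ) + 1)) (by positivity) n (n + 2)
    exact ⟨m, hm, c, u, h1, h2, h3, h4, h5⟩
  choose mm hm c u hc hu hmcu hind hbad using hch
  unfold PrimeLike at hbad
  push Not at hbad
  choose z hsh hnd hgcd using hbad
  obtain ⟨d, v, hd, hv, hvB, hz⟩ := short_seq hm S hS z hsh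
  have hL := logs_tendsto hm
  refine no_dich hm S hε z (fun n => by push Not; exact hnd n) hgcd ?_
  refine germ_two (bs_prime S hS) (bs_inj S) hL hr mm (fun n => rfl)
    (fun n => (Nat.le_add_left 2 n).trans (hm n)) (fun i n => c n i) ?_ (fun i n => (hc n i).1)
    (fun i n => u n i) (fun i n => isSU_of S hS (hu n i).1) ?_ (fun n => hmcu n) ?_
    d hd v hv hvB z hz
  · intro i
    refine negl_rpow hm (A := 1) (by norm_num) fun n => ?_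
    rw [one_mul, ← rpow_eq hm]
    exact (hc n i).2
  · intro i
    refine bd_of hm (A := C) (fun n => ?_) (fun n => ?_)
    · rw [← rpow_eq hm]; exact (hu n i).2.1
    · rw [← rpow_eq hm]; exact (hu n i).2.2
  · intro y hy
    by_contra hy0
    rw [← gm_mseq, mem_KK_iff] at hy
    have hτy := hτ y
    obtain ⟨Y, hY⟩ : ∃ Y : ℕ, ∀ i, |y i| ≤ Y := by
      refine ⟨∑ i, (y i).natAbs, fun i => ?_⟩
      rw [Int.abs_eq_natAbs]
      exact_mod_cast Finset.single_le_sum (f := fun i => (y i).natAbs) (fun _ _ => Nat.zero_le _)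
        (Finset.mem_univ i)
    obtain ⟨n, h1, h2, h3⟩ := ((hy.1 (τ y) hτy).and ((hy.2 (τ y) hτy).and
      (ev_of_atTop (eventually_ge_atTop Y)))).exists
    have h4 := hind n y hy0 (fun i => (hY i).trans (by exact_mod_cast h3))
    simp only [mseq] at h1 h2
    rw [← rpow_eq hm] at h1 h2
    rw [Int.cast_natCast, abs_of_nonneg (Nat.cast_nonneg _)] at h2
    have h5 := h4 h1
    linarith

end Pool.Agent.H95.BO
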