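import Mathlib
import Pool.Agent.H95.BO.Fin

/-!
# `m + 1` behaves like a prime for almost all `m` with `r ≥ 2` nonzero digits
-/

set_option autoImplicit false

namespace Pool.Agent.H95.BO

open Filter Topology Pool.Agent.H95.EB
open Pool.Agent.H95.SP (PrimeLike nzd digits_rep count_rel height_zpow)

open Classical in
/-- **Almost all `m` with `r ≥ 2` nonzero digits.** -/
theorem density (β : ℕ) (hβ : 2 ≤ β) (S : Finset ℕ) (hS : ∀ p ∈ S, p.Prime)
    (hβS : β.primeFactors ⊆ S) (r : ℕ) (hr : 2 ≤ r) (k : ℕ) (C ε : ℝ) (hC : 1 ≤ C) (hε : 0 < ε)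
    (η : ℝ) (hη : 0 < η) :
    ∃ δ : ℝ, 0 < δ ∧ ∃ N₀ : ℕ, ∀ N : ℕ, N₀ ≤ N →
      (((Finset.range (β ^ N)).filter fun m =>
        nzd β m = r ∧ ¬ PrimeLike S k δ C ε (m + 1)).card : ℝ) ≤ η * (N : ℝ) ^ r := by
  obtain ⟨θ, hθ⟩ : ∃ θ : ℝ, θ = η / (8 * (β : ℝ) ^ r) := ⟨_, rfl⟩
  have hβr : (2 : ℝ) ≤ β := by exact_mod_cast hβ
  have hθ0 : 0 < θ := by rw [hθ]; positivity
  obtain ⟨τ, hτ, c0, hτs, hτc⟩ := posSumOfEncodable hθ0 (Fin r → ℤ)
  obtain ⟨δ, hδ, B, m₀, hmain⟩ := more_terms S hS r hr k C ε hε τ hτ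
  obtain ⟨M, hM⟩ : ∃ M : ℕ, M = max (max m₀ 1) ⌈(β : ℝ) ^ (1 / δ)⌉₊ := ⟨_, rfl⟩
  obtain ⟨Q, hQ⟩ : ∃ Q : ℝ, Q = (β : ℝ) ^ r * ((2 * B + 1 : ℕ) : ℝ) ^ r := ⟨_, rfl⟩
  refine ⟨δ, hδ, max 1 (max ⌈4 * Q / η⌉₊ ⌈4 * M / η⌉₊), fun N hN => ?_⟩
  have hN1 : 1 ≤ N := (le_max_left _ _).trans hN
  have hN2 : 4 * Q / η ≤ N := (Nat.le_ceil _).trans
    (by exact_mod_cast (le_max_left _ _).trans ((le_max_right _ _).trans hN))
  have hN3 : 4 * M / η ≤ N := (Nat.le_ceil _).trans
    (by exact_mod_cast (le_max_right _ _).trans ((le_max_right _ _).trans hN))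
  have hNr : (1 : ℝ) ≤ N := by exact_mod_cast hN1
  -- the covering
  obtain ⟨box, hbox⟩ : ∃ box : Finset (Fin r → ℤ),
    box = (Fintype.piFinset fun _ => Finset.Icc (-(B : ℤ)) B).erase 0 := ⟨_, rfl⟩
  obtain ⟨rel, hrel⟩ : ∃ rel : (Fin r → ℤ) → Finset (Fin r → Fin N), rel = fun y =>
    Finset.univ.filter (fun a : Fin r → Fin N =>
      |((∑ i, y i * ((a i : ℕ) : ℤ) : ℤ) : ℝ)| ≤ τ y * N) := ⟨_, rfl⟩
  obtain ⟨Φ, hΦ⟩ : ∃ Φ : (Fin r → Fin N) × (Fin r → Fin β) → ℕ, Φ = fun x =>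
    ∑ i, (x.2 i : ℕ) * β ^ (x.1 i : ℕ) := ⟨_, rfl⟩
  have hcover : ((Finset.range (β ^ N)).filter fun m =>
      nzd β m = r ∧ ¬ PrimeLike S k δ C ε (m + 1)) ⊆
      Finset.range M ∪ box.biUnion fun y => (rel y ×ˢ (Finset.univ : Finset (Fin r → Fin β))).image Φ := by
    intro m hm
    rw [Finset.mem_filter, Finset.mem_range] at hm
    obtain ⟨hmN, hmr, hbad⟩ := hm
    rw [Finset.mem_union, Finset.mem_range]
    by_cases hmM : m < M
    · exact Or.inl hmM
    right
    push Not at hmM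
    have hm₀ : m₀ ≤ m := ((le_max_left _ _).trans (le_max_left _ _)).trans (hM ▸ hmM)
    have hm1 : 1 ≤ m := ((le_max_right _ _).trans (le_max_left _ _)).trans (hM ▸ hmM)
    have hmr1 : (1 : ℝ) ≤ m := by exact_mod_cast hm1
    have hmβ : (β : ℝ) ≤ (m : ℝ) ^ δ := by
      have h1 : (β : ℝ) ^ (1 / δ) ≤ m := (Nat.le_ceil _).trans
        (by exact_mod_cast (le_max_right _ _).trans (hM ▸ hmM))
      have h2 := Real.rpow_le_rpow (by positivity) h1 hδ.le
      rwa [← Real.rpow_mul (by linarith), one_div_mul_cancel hδ.ne', Real.rpow_one] at h2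
    obtain ⟨a, d, hd, hmad⟩ := digits_rep hβ hmN hmr
    have hterm : ∀ i, (d i : ℕ) * β ^ (a i : ℕ) ≤ m := by
      intro i
      rw [hmad]
      exact Finset.single_le_sum (f := fun i => (d i : ℕ) * β ^ (a i : ℕ))
        (fun _ _ => Nat.zero_le _) (Finset.mem_univ i)
    have hpow : ∀ i, β ^ (a i : ℕ) ≤ m := by
      intro i
      refine le_trans ?_ (hterm i)
      exact Nat.le_mul_of_pos_left _ (Nat.pos_of_ne_zero (hd i))
    have hmC : (m : ℝ) ≤ (m : ℝ) ^ C := by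
      have := Real.rpow_le_rpow_of_exponent_le hmr1 hC
      rwa [Real.rpow_one] at this
    have h3 := hmain m hm₀ (fun i => ((d i : ℕ) : ℤ)) (fun i => (β : ℚ) ^ (a i : ℕ))
      (by
        intro i
        refine ⟨by exact_mod_cast hd i, ?_⟩
        rw [Int.cast_natCast, abs_of_nonneg (Nat.cast_nonneg _)]
        refine le_trans ?_ hmβ
        exact_mod_cast (d i).2.le)
      (by
        intro i
        have hnum : ((β : ℚ) ^ (a i : ℕ)).num = ((β ^ (a i : ℕ) : ℕ) : ℤ) := by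
          rw [Rat.num_pow, Rat.num_natCast]
          push_cast
          rfl
        have hden : ((β : ℚ) ^ (a i : ℕ)).den = 1 := by
          rw [Rat.den_pow, Rat.den_natCast, one_pow]
        refine ⟨⟨by positivity, ?_, ?_⟩, ?_, ?_⟩
        · rw [hnum, Int.natAbs_natCast]
          refine subset_trans ?_ hβS
          intro p hp
          rw [Nat.mem_primeFactors] at hp ⊢
          exact ⟨hp.1, hp.1.dvd_of_dvd_pow hp.2.1, by omega⟩
        · rw [hden]
          simp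
        · rw [hnum, Int.cast_natCast, abs_of_nonneg (Nat.cast_nonneg _)]
          refine le_trans ?_ hmC
          exact_mod_cast hpow i
        · rw [hden, Nat.cast_one]
          exact hmr1.trans hmC)
      (by
        rw [hmad]
        push_cast
        rfl)
    rcases h3 with ⟨y, hy0, hyB, hnum, hden⟩ | h3
    · rw [Finset.mem_biUnion]
      refine ⟨y, ?_, ?_⟩
      · rw [hbox, Finset.mem_erase, Fintype.mem_piFinset]
        refine ⟨hy0, fun i => ?_⟩
        rw [Finset.mem_Icc]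
        exact abs_le.1 (hyB i)
      · rw [Finset.mem_image]
        refine ⟨(a, d), ?_, by rw [hΦ]; exact hmad.symm⟩
        rw [Finset.mem_product]
        refine ⟨?_, Finset.mem_univ _⟩
        rw [hrel, Finset.mem_filter]
        refine ⟨Finset.mem_univ _, ?_⟩
        have hprod : ∏ i, ((β : ℚ) ^ (a i : ℕ)) ^ y i =
            (β : ℚ) ^ (∑ i, y i * ((a i : ℕ) : ℤ)) := by
          have hβ0 : (β : ℚ) ≠ 0 := by exact_mod_cast (by omega : β ≠ 0)
          have h5 : ∀ s : Finset (Fin r), ∏ i ∈ s, ((β : ℚ) ^ (a i : ℕ)) ^ y i =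
              (β : ℚ) ^ (∑ i ∈ s, y i * ((a i : ℕ) : ℤ)) := by
            intro s
            induction s using Finset.induction_on with
            | empty => simp
            | insert i s hi ih =>
              rw [Finset.prod_insert hi, Finset.sum_insert hi, zpow_add₀ hβ0, ih, ← zpow_natCast,
                ← zpow_mul, mul_comm (y i)]
          exact h5 _
        rw [hprod] at hnum hden
        have h6 := height_zpow hβ _ hnum hden
        have h7 : (m : ℝ) ^ τ y ≤ (β : ℝ) ^ (τ y * N) := by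
          have h8 : (m : ℝ) ≤ (β : ℝ) ^ (N : ℝ) := by
            rw [Real.rpow_natCast]
            exact_mod_cast hmN.le
          refine (Real.rpow_le_rpow (by linarith) h8 (hτ y).le).trans ?_
          rw [← Real.rpow_mul (by linarith), mul_comm]
        exact (Real.rpow_le_rpow_left_iff (by linarith : (1 : ℝ) < β)).1 (h6.trans h7)
    · exact absurd h3 hbad
  have hcard1 := (Finset.card_le_card hcover).trans (Finset.card_union_le _ _)
  have hcard2 : ((box.biUnion fun y =>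
      (rel y ×ˢ (Finset.univ : Finset (Fin r → Fin β))).image Φ).card : ℝ) ≤
      ∑ y ∈ box, (2 * (τ y * N) + 1) * (N : ℝ) ^ (r - 1) * (β : ℝ) ^ r := by
    have h0 : ((box.biUnion fun y =>
        (rel y ×ˢ (Finset.univ : Finset (Fin r → Fin β))).image Φ).card : ℝ) ≤
        ((∑ y ∈ box, ((rel y ×ˢ (Finset.univ : Finset (Fin r → Fin β))).image Φ).card : ℕ) : ℝ) := by
      exact_mod_cast Finset.card_biUnion_le
    refine h0.trans ?_
    push_cast
    refine Finset.sum_le_sum fun y hy => ?_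
    have hy0 : y ≠ 0 := by
      rw [hbox, Finset.mem_erase] at hy
      exact hy.1
    have h1 : (((rel y ×ˢ (Finset.univ : Finset (Fin r → Fin β))).image Φ).card : ℝ) ≤
        ((rel y).card : ℝ) * (β : ℝ) ^ r := by
      have h2 := Finset.card_image_le (s := rel y ×ˢ (Finset.univ : Finset (Fin r → Fin β))) (f := Φ)
      rw [Finset.card_product, Finset.card_univ, Fintype.card_fun, Fintype.card_fin,
        Fintype.card_fin] at h2
      exact_mod_cast h2
    refine h1.trans ?_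
    refine mul_le_mul_of_nonneg_right ?_ (by positivity)
    rw [hrel]
    exact count_rel r N y hy0 (τ y * N) (mul_nonneg (hτ y).le (Nat.cast_nonneg _))
  have hboxcard : (box.card : ℝ) ≤ ((2 * B + 1 : ℕ) : ℝ) ^ r := by
    have h1 : box.card ≤ (2 * B + 1) ^ r := by
      rw [hbox]
      refine (Finset.card_erase_le).trans ?_
      rw [Fintype.card_piFinset]
      simp only [Int.card_Icc, Finset.prod_const, Finset.card_univ, Fintype.card_fin]
      apply Nat.pow_le_pow_left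
      omega
    exact_mod_cast h1
  have hτsum : ∑ y ∈ box, τ y ≤ θ :=
    (sum_le_hasSum box (fun y _ => (hτ y).le) hτs).trans hτc
  have hsum : ∑ y ∈ box, (2 * (τ y * N) + 1) * (N : ℝ) ^ (r - 1) * (β : ℝ) ^ r ≤
      2 * θ * (β : ℝ) ^ r * (N : ℝ) ^ r + Q * (N : ℝ) ^ (r - 1) := by
    have hNN : (N : ℝ) ^ r = N * (N : ℝ) ^ (r - 1) := by
      conv_lhs => rw [show r = (r - 1) + 1 by omega, pow_succ]
      ring
    have h1 : ∑ y ∈ box, (2 * (τ y * N) + 1) * (N : ℝ) ^ (r - 1) * (β : ℝ) ^ r =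
        (2 * (β : ℝ) ^ r * (N : ℝ) ^ r) * ∑ y ∈ box, τ y +
          ((N : ℝ) ^ (r - 1) * (β : ℝ) ^ r) * (box.card : ℝ) := by
      rw [Finset.mul_sum, Finset.card_eq_sum_ones]
      push_cast
      rw [Finset.mul_sum, ← Finset.sum_add_distrib]
      refine Finset.sum_congr rfl fun y _ => ?_
      rw [hNN]
      ring
    rw [h1]
    have h2 : (2 * (β : ℝ) ^ r * (N : ℝ) ^ r) * ∑ y ∈ box, τ y ≤
        (2 * (β : ℝ) ^ r * (N : ℝ) ^ r) * θ := mul_le_mul_of_nonneg_left hτsum (by positivity)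
    have h3 : ((N : ℝ) ^ (r - 1) * (β : ℝ) ^ r) * (box.card : ℝ) ≤
        ((N : ℝ) ^ (r - 1) * (β : ℝ) ^ r) * ((2 * B + 1 : ℕ) : ℝ) ^ r :=
      mul_le_mul_of_nonneg_left hboxcard (by positivity)
    have h4 : ((N : ℝ) ^ (r - 1) * (β : ℝ) ^ r) * ((2 * B + 1 : ℕ) : ℝ) ^ r =
        Q * (N : ℝ) ^ (r - 1) := by
      rw [hQ]
      ring
    linarith
  have hNN : (N : ℝ) ^ r = N * (N : ℝ) ^ (r - 1) := by
    conv_lhs => rw [show r = (r - 1) + 1 by omega, pow_succ]
    ring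
  have hP : (0 : ℝ) < (N : ℝ) ^ (r - 1) := by positivity
  have hP1 : (1 : ℝ) ≤ (N : ℝ) ^ (r - 1) := one_le_pow₀ hNr
  have h1 : 2 * θ * (β : ℝ) ^ r * (N : ℝ) ^ r = η / 4 * (N : ℝ) ^ r := by
    rw [hθ]
    field_simp
    ring
  have h2 : Q * (N : ℝ) ^ (r - 1) ≤ η / 4 * (N : ℝ) ^ r := by
    rw [div_le_iff₀ hη] at hN2
    rw [hNN]
    have : Q ≤ η / 4 * N := by linarith
    nlinarith
  have h3 : (M : ℝ) ≤ η / 4 * (N : ℝ) ^ r := by
    rw [div_le_iff₀ hη] at hN3
    rw [hNN]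
    have h4 : (M : ℝ) ≤ η / 4 * N := by linarith
    have h5 : η / 4 * N ≤ η / 4 * (N * (N : ℝ) ^ (r - 1)) := by
      apply mul_le_mul_of_nonneg_left _ (by positivity)
      nlinarith
    linarith
  have h4 : (((Finset.range (β ^ N)).filter fun m =>
        nzd β m = r ∧ ¬ PrimeLike S k δ C ε (m + 1)).card : ℝ) ≤ (M : ℝ) +
      ((box.biUnion fun y =>
        (rel y ×ˢ (Finset.univ : Finset (Fin r → Fin β))).image Φ).card : ℝ) := by
    have h5 := hcard1
    rw [Finset.card_range] at h5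
    exact_mod_cast h5
  have h5 : 0 < η * (N : ℝ) ^ r := by positivity
  linarith

end Pool.Agent.H95.BO
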