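import Mathlib
import Pool.Agent.H95.BO.Cnt

/-!
# Odd numbers with a given number of binary ones
-/

set_option autoImplicit false

namespace Pool.Agent.H95.BO

open Filter Topology Pool.Agent.H95.EB
open Pool.Agent.H95.SP (PrimeLike nzd digits_rep count_rel height_zpow)

lemma sum_bits : ∀ l : List ℕ, (∀ x ∈ l, x < 2) → l.sum = (l.filter fun x => x ≠ 0).length := by
  intro l
  induction l with
  | nil => intro _; rfl
  | cons x t ih =>
    intro hl
    have hx := hl x (by simp)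
    have ht := ih (fun y hy => hl y (by simp [hy]))
    rw [List.sum_cons, ht]
    by_cases hx0 : x = 0
    · rw [List.filter_cons_of_neg (by simpa using hx0), hx0, zero_add]
    · rw [List.filter_cons_of_pos (by simpa using hx0), List.length_cons]
      omega

lemma sum_eq_nzd (m : ℕ) : (Nat.digits 2 m).sum = nzd 2 m :=
  sum_bits _ fun _ hx => Nat.digits_lt_base (by norm_num) hx

lemma nzd_double (q : ℕ) : nzd 2 (2 * q) = nzd 2 q := by
  rcases Nat.eq_zero_or_pos q with rfl | hq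
  · rfl
  · unfold nzd
    rw [Nat.digits_def' (by norm_num) (by omega : 0 < 2 * q)]
    have h1 : 2 * q % 2 = 0 := by omega
    have h2 : 2 * q / 2 = q := by omega
    rw [h1, h2, List.filter_cons_of_neg (by simp)]

lemma sum_odd {p r : ℕ} (hp : Odd p) (h : (Nat.digits 2 p).sum = r + 1) : nzd 2 (p - 1) = r := by
  obtain ⟨q, rfl⟩ := hp
  have h1 : 2 * q + 1 - 1 = 2 * q := by omega
  rw [h1, nzd_double, ← sum_eq_nzd]
  rw [Nat.digits_def' (by norm_num) (by omega : 0 < 2 * q + 1)] at h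
  have h2 : (2 * q + 1) % 2 = 1 := by omega
  have h3 : (2 * q + 1) / 2 = q := by omega
  rw [h2, h3, List.sum_cons] at h
  omega

/-- exponents which satisfy no short linear relation -/
theorem near (S : Finset ℕ) (hS : ∀ p ∈ S, p.Prime) (h2 : 2 ∈ S) (r : ℕ) (hr : 2 ≤ r) (k : ℕ) (C ε : ℝ)
    (hC : 1 ≤ C) (hε : 0 < ε) (τ : (Fin r → ℤ) → ℝ) (hτ : ∀ y, 0 < τ y) :
    ∃ δ : ℝ, 0 < δ ∧ ∃ B p₀ : ℕ, ∀ (p : ℕ) (n : Fin r → ℕ), p₀ ≤ p → p = 1 + ∑ i, 2 ^ n i →
      (∃ y : Fin r → ℤ, y ≠ 0 ∧ (∀ i, |y i| ≤ B) ∧ |∑ i, (y i : ℝ) * n i| ≤ τ y * Real.logb 2 p) ∨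
      PrimeLike S k δ C ε p := by
  obtain ⟨δ, hδ, B, m₀, hmain⟩ := more_terms S hS r hr k C ε hε τ hτ
  refine ⟨δ, hδ, B, m₀ + 2, fun p n hp hpn => ?_⟩
  obtain ⟨m, rfl⟩ : ∃ m, p = m + 1 := ⟨p - 1, by omega⟩
  have hm : m = ∑ i, 2 ^ n i := by omega
  have hm1 : (1 : ℝ) ≤ m := by exact_mod_cast (by omega : 1 ≤ m)
  have hpow : ∀ i, 2 ^ n i ≤ m := by
    intro i
    rw [hm]
    exact Finset.single_le_sum (f := fun i => 2 ^ n i) (fun _ _ => Nat.zero_le _) (Finset.mem_univ i)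
  have hmC : (m : ℝ) ≤ (m : ℝ) ^ C := by
    have := Real.rpow_le_rpow_of_exponent_le hm1 hC
    rwa [Real.rpow_one] at this
  have h3 := hmain m (by omega) (fun _ => 1) (fun i => (2 : ℚ) ^ n i)
    (by
      intro i
      refine ⟨one_ne_zero, ?_⟩
      rw [Int.cast_one, abs_one]
      exact Real.one_le_rpow hm1 hδ.le)
    (by
      intro i
      have hnum : ((2 : ℚ) ^ n i).num = ((2 ^ n i : ℕ) : ℤ) := by
        rw [Rat.num_pow]
        push_cast
        rfl
      have hden : ((2 : ℚ) ^ n i).den = 1 := by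
        rw [Rat.den_pow]
        simp
      refine ⟨⟨by positivity, ?_, ?_⟩, ?_, ?_⟩
      · rw [hnum, Int.natAbs_natCast]
        intro q hq
        rw [Nat.mem_primeFactors] at hq
        rw [(Nat.prime_dvd_prime_iff_eq hq.1 Nat.prime_two).1 (hq.1.dvd_of_dvd_pow hq.2.1)]
        exact h2
      · rw [hden]
        simp
      · rw [hnum, Int.cast_natCast, abs_of_nonneg (Nat.cast_nonneg _)]
        refine le_trans ?_ hmC
        exact_mod_cast hpow i
      · rw [hden, Nat.cast_one]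
        exact hm1.trans hmC)
    (by
      rw [hm]
      push_cast
      simp)
  refine h3.imp ?_ id
  rintro ⟨y, hy0, hyB, hnum, hden⟩
  refine ⟨y, hy0, hyB, ?_⟩
  have hprod : ∏ i, ((2 : ℚ) ^ n i) ^ y i = ((2 : ℕ) : ℚ) ^ (∑ i, y i * ((n i : ℕ) : ℤ)) := by
    have hβ0 : (2 : ℚ) ≠ 0 := by norm_num
    have h5 : ∀ s : Finset (Fin r), ∏ i ∈ s, ((2 : ℚ) ^ n i) ^ y i =
        ((2 : ℕ) : ℚ) ^ (∑ i ∈ s, y i * ((n i : ℕ) : ℤ)) := by
      intro s
      induction s using Finset.induction_on with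
      | empty => simp
      | insert i s hi ih =>
        rw [Finset.prod_insert hi, Finset.sum_insert hi, ih]
        push_cast
        rw [zpow_add₀ hβ0, ← zpow_natCast, ← zpow_mul, mul_comm (y i)]
    exact h5 _
  rw [hprod] at hnum hden
  have h6 := height_zpow (β := 2) le_rfl _ hnum hden
  have h7 : (m : ℝ) ^ τ y ≤ ((m + 1 : ℕ) : ℝ) ^ τ y := by
    refine Real.rpow_le_rpow (by positivity) ?_ (hτ y).le
    push_cast
    linarith
  have h8 : ((m + 1 : ℕ) : ℝ) ^ τ y = (2 : ℝ) ^ (τ y * Real.logb 2 ((m + 1 : ℕ) : ℝ)) := by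
    rw [mul_comm, Real.rpow_mul (by norm_num), Real.rpow_logb (by norm_num) (by norm_num) (by positivity)]
  have h9 := h6.trans (h7.trans h8.le)
  push_cast at h9
  have h10 := (Real.rpow_le_rpow_left_iff (by norm_num : (1 : ℝ) < 2)).1 h9
  push_cast
  exact h10

open Classical in
/-- almost all odd numbers with `r + 1` binary ones -/
theorem density2 (S : Finset ℕ) (hS : ∀ p ∈ S, p.Prime) (h2 : 2 ∈ S) (r : ℕ) (hr : 2 ≤ r) (k : ℕ) (C ε : ℝ)
    (hC : 1 ≤ C) (hε : 0 < ε) (η : ℝ) (hη : 0 < η) :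
    ∃ δ : ℝ, 0 < δ ∧ ∃ N₀ : ℕ, ∀ N : ℕ, N₀ ≤ N →
      (((Finset.range (2 ^ N)).filter fun p =>
        Odd p ∧ (Nat.digits 2 p).sum = r + 1 ∧ ¬ PrimeLike S k δ C ε p).card : ℝ) ≤ η * (N : ℝ) ^ r := by
  obtain ⟨δ, hδ, N₀, h⟩ := density 2 le_rfl S hS (by
    rw [Nat.prime_two.primeFactors]
    simpa using h2) r hr k C ε hC hε η hη
  refine ⟨δ, hδ, N₀, fun N hN => le_trans ?_ (h N hN)⟩
  have hc : ((Finset.range (2 ^ N)).filter fun p =>
        Odd p ∧ (Nat.digits 2 p).sum = r + 1 ∧ ¬ PrimeLike S k δ C ε p).card ≤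
      ((Finset.range (2 ^ N)).filter fun m => nzd 2 m = r ∧ ¬ PrimeLike S k δ C ε (m + 1)).card := by
    refine Finset.card_le_card_of_injOn (fun p => p - 1) ?_ ?_
    · intro p hp
      rw [Finset.mem_coe, Finset.mem_filter, Finset.mem_range] at hp ⊢
      obtain ⟨h1, h3, h4, h5⟩ := hp
      have h6 : 1 ≤ p := h3.pos
      have h7 : p - 1 + 1 = p := by omega
      simp only
      rw [h7]
      exact ⟨by omega, sum_odd h3 h4, h5⟩
    · intro p hp q hq hpq
      rw [Finset.mem_coe, Finset.mem_filter] at hp hq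
      have h6 : 1 ≤ p := hp.2.1.pos
      have h7 : 1 ≤ q := hq.2.1.pos
      simp only at hpq
      omega
  exact_mod_cast hc

end Pool.Agent.H95.BO
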